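import Mathlib

/-!
Finite perfect groups with trivial centre all of whose conjugacy classes are tiny compared with
the order of the group.
-/

set_option autoImplicit false

namespace Pool.Agent.Results.MP_606b74_al.NoPowerBound

/-! ### Semidirect products of an abelian group and a group acting on it -/

/-- The semidirect product of the additive group `V` with the group `S` acting on it. -/
@[ext] structure SD (S V : Type) where
  v : V
  s : S

namespace SD

open scoped commutatorElement

variable {S V : Type} [Group S] [AddCommGroup V] [DistribMulAction S V]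

instance : Mul (SD S V) := ⟨fun a b => ⟨a.v + a.s • b.v, a.s * b.s⟩⟩
instance : One (SD S V) := ⟨⟨0, 1⟩⟩
instance : Inv (SD S V) := ⟨fun a => ⟨-(a.s⁻¹ • a.v), a.s⁻¹⟩⟩

theorem mul_def (a b : SD S V) : a * b = ⟨a.v + a.s • b.v, a.s * b.s⟩ := rfl
theorem one_def : (1 : SD S V) = ⟨0, 1⟩ := rfl
theorem inv_def (a : SD S V) : a⁻¹ = ⟨-(a.s⁻¹ • a.v), a.s⁻¹⟩ := rfl

instance : Group (SD S V) where
  mul_assoc a b c := by
    ext
    · simp [mul_def, add_assoc, mul_smul]
    · simp [mul_def, mul_assoc]
  one_mul a := by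
    ext
    · simp [mul_def, one_def]
    · simp [mul_def, one_def]
  mul_one a := by
    ext
    · simp [mul_def, one_def]
    · simp [mul_def, one_def]
  inv_mul_cancel a := by
    ext
    · simp [mul_def, one_def, inv_def]
    · simp [mul_def, one_def, inv_def]

def equiv : SD S V ≃ V × S where
  toFun a := (a.v, a.s)
  invFun a := ⟨a.1, a.2⟩
  left_inv _ := rfl
  right_inv _ := rfl

instance [Finite S] [Finite V] : Finite (SD S V) := Finite.of_equiv _ (equiv (S := S) (V := V)).symm

theorem card : Nat.card (SD S V) = Nat.card V * Nat.card S := by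
  rw [Nat.card_congr (equiv (S := S) (V := V)), Nat.card_prod]

/-- the embedding of `S` -/
def inS : S →* SD S V where
  toFun s := ⟨0, s⟩
  map_one' := rfl
  map_mul' s t := by ext <;> simp [mul_def]

/-- the embedding of `V` -/
def inV : Multiplicative V →* SD S V where
  toFun v := ⟨v.toAdd, 1⟩
  map_one' := rfl
  map_mul' v w := by ext <;> simp [mul_def]

theorem perfect (hS : commutator S = ⊤)
    (hV : AddSubgroup.closure {w : V | ∃ (s : S) (v : V), w = s • v - v} = ⊤) :
    commutator (SD S V) = ⊤ := by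
  have h1 : ∀ s : S, (⟨0, s⟩ : SD S V) ∈ commutator (SD S V) := by
    intro s
    have h2 : s ∈ commutator S := by rw [hS]; trivial
    have h3 : inS (V := V) s ∈ (commutator S).map (inS (V := V)) :=
      Subgroup.mem_map_of_mem _ h2
    have h4 : (commutator S).map (inS (V := V)) ≤ commutator (SD S V) := by
      rw [commutator_def, commutator_def, Subgroup.map_commutator]
      exact Subgroup.commutator_mono le_top le_top
    exact h4 h3
  have h5 : ∀ v : V, (⟨v, 1⟩ : SD S V) ∈ commutator (SD S V) := by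
    intro v
    have h6 : v ∈ AddSubgroup.closure {w : V | ∃ (s : S) (v : V), w = s • v - v} := by
      rw [hV]; trivial
    induction h6 using AddSubgroup.closure_induction with
    | mem w hw =>
      obtain ⟨s, u, rfl⟩ := hw
      have h7 : (⟨s • u - u, 1⟩ : SD S V) = ⁅(⟨0, s⟩ : SD S V), (⟨u, 1⟩ : SD S V)⁆ := by
        rw [commutatorElement_def]
        ext
        · simp [mul_def, inv_def, sub_eq_add_neg]
        · simp [mul_def, inv_def]
      rw [h7, commutator_def]
      exact Subgroup.commutator_mem_commutator (Subgroup.mem_top _) (Subgroup.mem_top _)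
    | zero => exact Subgroup.one_mem _
    | add v w _ _ hv hw =>
      have h7 : (⟨v + w, 1⟩ : SD S V) = ⟨v, 1⟩ * ⟨w, 1⟩ := by
        ext <;> simp [mul_def]
      rw [h7]
      exact Subgroup.mul_mem _ hv hw
    | neg v _ hv =>
      have h7 : (⟨-v, 1⟩ : SD S V) = (⟨v, 1⟩)⁻¹ := by
        ext <;> simp [inv_def]
      rw [h7]
      exact Subgroup.inv_mem _ hv
  rw [eq_top_iff]
  rintro ⟨v, s⟩ -
  have h8 : (⟨v, s⟩ : SD S V) = ⟨v, 1⟩ * ⟨0, s⟩ := by
    ext <;> simp [mul_def]
  rw [h8]
  exact Subgroup.mul_mem _ (h5 v) (h1 s)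

theorem center_eq (hf : ∀ s : S, (∀ v : V, s • v = v) → s = 1)
    (h0 : ∀ v : V, (∀ s : S, s • v = v) → v = 0) :
    Subgroup.center (SD S V) = ⊥ := by
  rw [eq_bot_iff]
  intro z hz
  rw [Subgroup.mem_center_iff] at hz
  have h1 : z.s = 1 := by
    apply hf
    intro v
    have h2 := congrArg SD.v (hz ⟨v, 1⟩)
    simp only [mul_def, one_smul] at h2
    rw [add_comm] at h2
    exact (add_left_cancel h2).symm
  have h3 : z.v = 0 := by
    apply h0
    intro s
    have h2 := congrArg SD.v (hz ⟨0, s⟩)
    simpa [mul_def] using h2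
  rw [Subgroup.mem_bot]
  ext
  · exact h3
  · exact h1

theorem class_card [Finite S] [Finite V] (x : SD S V) :
    Nat.card {y : SD S V // IsConj x y} * Nat.card {v : V // x.s • v = v} ≤
      Nat.card V * Nat.card S := by
  rw [← card (S := S) (V := V)]
  have h1 : Nat.card {y : SD S V // IsConj x y} * Nat.card (Subgroup.centralizer {x}) =
      Nat.card (SD S V) := by
    have h2 := (MulAction.stabilizer (ConjAct (SD S V)) x).index_mul_card
    rw [MulAction.index_stabilizer, ← Subgroup.nat_card_centralizer_nat_card_stabilizer] at h2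
    have h3 : {y : SD S V | IsConj x y} = MulAction.orbit (ConjAct (SD S V)) x := by
      ext y
      rw [ConjAct.mem_orbit_conjAct]
      exact isConj_comm
    have h4 : Nat.card {y : SD S V // IsConj x y} =
        (MulAction.orbit (ConjAct (SD S V)) x).ncard := by
      rw [← h3]
      exact Nat.card_coe_set_eq {y : SD S V | IsConj x y}
    rw [h4, h2]
    rfl
  rw [← h1]
  apply Nat.mul_le_mul_left
  have hinj : Function.Injective (fun v : {v : V // x.s • v = v} =>
      (⟨⟨v.1, 1⟩, by
        rw [Subgroup.mem_centralizer_singleton_iff]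
        ext
        · simp [mul_def, v.2, add_comm]
        · simp [mul_def]⟩ : Subgroup.centralizer {x})) := by
    intro v w h
    have h2 := congrArg (fun y => (y.1 : SD S V).v) h
    exact Subtype.ext h2
  exact Nat.card_le_card_of_injective _ hinj

end SD

/-! ### Powers of a module -/

section power

variable {S V : Type} [Group S] [AddCommGroup V] [DistribMulAction S V]

theorem faithful_pow {m : ℕ} (hm : 0 < m) (hf : ∀ s : S, (∀ v : V, s • v = v) → s = 1) (s : S)
    (h : ∀ v : Fin m → V, s • v = v) : s = 1 := by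
  apply hf
  intro v
  exact congrFun (h fun _ => v) ⟨0, hm⟩

theorem fixed_pow {m : ℕ} (h0 : ∀ v : V, (∀ s : S, s • v = v) → v = 0) (v : Fin m → V)
    (h : ∀ s : S, s • v = v) : v = 0 := by
  funext i
  apply h0
  intro s
  exact congrFun (h s) i

theorem span_pow {m : ℕ}
    (hV : AddSubgroup.closure {w : V | ∃ (s : S) (v : V), w = s • v - v} = ⊤) :
    AddSubgroup.closure {w : Fin m → V | ∃ (s : S) (v : Fin m → V), w = s • v - v} = ⊤ := by
  have h1 : ∀ (i : Fin m) (u : V), Pi.single i u ∈
      AddSubgroup.closure {w : Fin m → V | ∃ (s : S) (v : Fin m → V), w = s • v - v} := by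
    intro i u
    have h2 : u ∈ AddSubgroup.closure {w : V | ∃ (s : S) (v : V), w = s • v - v} := by
      rw [hV]; trivial
    have h3 : Pi.single i u ∈ (AddSubgroup.closure {w : V | ∃ (s : S) (v : V),
        w = s • v - v}).map (AddMonoidHom.single (fun _ : Fin m => V) i) :=
      ⟨u, h2, rfl⟩
    rw [AddMonoidHom.map_closure] at h3
    refine AddSubgroup.closure_mono ?_ h3
    rintro _ ⟨_, ⟨s, v, rfl⟩, rfl⟩
    refine ⟨s, Pi.single i v, ?_⟩
    funext j
    by_cases hj : j = i
    · subst hj; simp
    · simp [Pi.single_eq_of_ne hj]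
  rw [eq_top_iff]
  rintro v -
  rw [← Finset.univ_sum_single v]
  exact AddSubgroup.sum_mem _ fun i _ => h1 i (v i)

theorem card_fixed_pow {m : ℕ} (s : S) :
    Nat.card {v : Fin m → V // s • v = v} = Nat.card {v : V // s • v = v} ^ m := by
  have e : {v : Fin m → V // s • v = v} ≃ (Fin m → {v : V // s • v = v}) :=
    { toFun := fun v i => ⟨v.1 i, congrFun v.2 i⟩
      invFun := fun w => ⟨fun i => (w i).1, funext fun i => (w i).2⟩
      left_inv := fun _ => rfl
      right_inv := fun _ => rfl }
  rw [Nat.card_congr e, Nat.card_fun, Nat.card_eq_fintype_card (α := Fin m), Fintype.card_fin]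

theorem main_of [Finite S] [Finite V] (c Q D : ℕ) (hQ : 2 ≤ Q) (hD : D = Q ^ c)
    (hcard : Nat.card V = Q * D)
    (hfix : ∀ s : S, D ≤ Nat.card {v : V // s • v = v})
    (hS : commutator S = ⊤)
    (hV : AddSubgroup.closure {w : V | ∃ (s : S) (v : V), w = s • v - v} = ⊤)
    (hf : ∀ s : S, (∀ v : V, s • v = v) → s = 1)
    (h0 : ∀ v : V, (∀ s : S, s • v = v) → v = 0) :
    ∃ (G : Type) (_ : Group G) (_ : Finite G), commutator G = ⊤ ∧ Subgroup.center G = ⊥ ∧
      ∀ x : G, Nat.card {y : G // IsConj x y} ^ c < Nat.card G := by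
  set N := Nat.card S with hN
  have hN0 : 0 < N := Nat.card_pos
  set m := N ^ c with hm
  have hm0 : 0 < m := pow_pos hN0 c
  refine ⟨SD S (Fin m → V), inferInstance, inferInstance, SD.perfect hS (span_pow hV),
    SD.center_eq (faithful_pow hm0 hf) (fixed_pow h0), ?_⟩
  intro x
  have hD0 : 0 < D := by rw [hD]; exact pow_pos (by omega) _
  have hV2 : Nat.card (Fin m → V) = (Q * D) ^ m := by
    rw [Nat.card_fun, Nat.card_eq_fintype_card (α := Fin m), Fintype.card_fin, hcard]
  have h1 := SD.class_card x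
  rw [card_fixed_pow, hV2, ← hN] at h1
  set cc := Nat.card {y : SD S (Fin m → V) // IsConj x y} with hcc
  have h2 : cc ≤ Q ^ m * N := by
    have h3 : cc * D ^ m ≤ (Q ^ m * N) * D ^ m := by
      calc cc * D ^ m ≤ cc * Nat.card {v : V // x.s • v = v} ^ m :=
            Nat.mul_le_mul_left _ (Nat.pow_le_pow_left (hfix x.s) m)
        _ ≤ (Q * D) ^ m * N := h1
        _ = (Q ^ m * N) * D ^ m := by rw [mul_pow]; ring
    exact Nat.le_of_mul_le_mul_right h3 (pow_pos hD0 m)
  rw [SD.card, hV2, ← hN]
  have h4 : N ^ c < Q ^ m * N := by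
    calc N ^ c = m := rfl
      _ < 2 ^ m := Nat.lt_two_pow_self
      _ ≤ Q ^ m := Nat.pow_le_pow_left hQ m
      _ = Q ^ m * 1 := (mul_one _).symm
      _ ≤ Q ^ m * N := Nat.mul_le_mul_left _ hN0
  calc cc ^ c ≤ (Q ^ m * N) ^ c := Nat.pow_le_pow_left h2 c
    _ = D ^ m * N ^ c := by rw [mul_pow, hD, ← pow_mul, ← pow_mul, mul_comm m c]
    _ < D ^ m * (Q ^ m * N) := Nat.mul_lt_mul_of_pos_left h4 (pow_pos hD0 m)
    _ = (Q * D) ^ m * N := by rw [mul_pow]; ring

end power

/-! ### The linear group -/

/-- the coordinates: three lower ones, `k` middle ones and three upper ones -/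
abbrev Ix (k : ℕ) : Type := Fin 3 ⊕ (Fin k ⊕ Fin 3)

/-- the layer of a coordinate -/
def ly {k : ℕ} : Ix k → ℕ
  | Sum.inl _ => 0
  | Sum.inr (Sum.inl _) => 1
  | Sum.inr (Sum.inr _) => 2

/-- the space -/
abbrev Sp (k : ℕ) : Type := Ix k → ZMod 2

/-- its linear automorphisms -/
abbrev Au (k : ℕ) : Type := Sp k ≃ₗ[ZMod 2] Sp k

/-- the transvection adding coordinate `j` to coordinate `i` -/
def tv {k : ℕ} (i j : Ix k) (h : i ≠ j) : Au k where
  toFun v := v + Pi.single i (v j)
  invFun v := v - Pi.single i (v j)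
  left_inv v := by
    funext x
    by_cases hx : x = i
    · subst hx; simp [Pi.single_eq_of_ne h.symm]
    · simp [Pi.single_eq_of_ne hx]
  right_inv v := by
    funext x
    by_cases hx : x = i
    · subst hx; simp [Pi.single_eq_of_ne h.symm]
    · simp [Pi.single_eq_of_ne hx]
  map_add' v w := by
    rw [Pi.add_apply, Pi.single_add]
    abel
  map_smul' a v := by
    funext x
    by_cases hx : x = i
    · subst hx; simp [mul_add]
    · simp [Pi.single_eq_of_ne hx]

theorem tv_apply {k : ℕ} (i j : Ix k) (h : i ≠ j) (v : Sp k) :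
    tv i j h v = v + Pi.single i (v j) := rfl

theorem tv_inv_apply {k : ℕ} (i j : Ix k) (h : i ≠ j) (v : Sp k) :
    (tv i j h)⁻¹ v = v - Pi.single i (v j) := rfl

open scoped commutatorElement in
theorem tv_comm {k : ℕ} {i l j : Ix k} (h1 : i ≠ l) (h2 : l ≠ j) (h3 : i ≠ j) :
    ⁅tv i l h1, tv l j h2⁆ = tv i j h3 := by
  rw [commutatorElement_def]
  apply LinearEquiv.ext
  intro v
  rw [LinearEquiv.mul_apply, LinearEquiv.mul_apply, LinearEquiv.mul_apply, tv_inv_apply,
    tv_inv_apply, tv_apply,
    tv_apply, tv_apply]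
  funext x
  by_cases hx : x = i
  · subst hx
    simp [Pi.single_eq_of_ne h1, Pi.single_eq_of_ne h1.symm, Pi.single_eq_of_ne h2.symm,
      Pi.single_eq_of_ne h3.symm]
    ring
  · by_cases hx2 : x = l
    · subst hx2
      simp [Pi.single_eq_of_ne h1.symm, Pi.single_eq_of_ne h2.symm, Pi.single_eq_of_ne h3.symm]
    · simp [Pi.single_eq_of_ne hx, Pi.single_eq_of_ne hx2]

/-- the transvections that we use -/
def Ok {k : ℕ} (i j : Ix k) : Prop := ly i < ly j ∨ (ly i = ly j ∧ ly i ≠ 1)

theorem exists_third (a b : Fin 3) : ∃ c : Fin 3, c ≠ a ∧ c ≠ b := by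
  revert a b; decide

theorem ok_third {k : ℕ} {i j : Ix k} (h : Ok i j) :
    ∃ l : Ix k, i ≠ l ∧ l ≠ j ∧ Ok i l ∧ Ok l j := by
  rcases i with i | i | i
  · rcases j with j | j | j
    · obtain ⟨c, hc1, hc2⟩ := exists_third i j
      exact ⟨Sum.inl c, by simpa using hc1.symm, by simpa using hc2, by simp [Ok, ly],
        by simp [Ok, ly]⟩
    · obtain ⟨c, hc1, -⟩ := exists_third i i
      exact ⟨Sum.inl c, by simpa using hc1.symm, by simp, by simp [Ok, ly], by simp [Ok, ly]⟩
    · obtain ⟨c, hc1, -⟩ := exists_third i i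
      exact ⟨Sum.inl c, by simpa using hc1.symm, by simp, by simp [Ok, ly], by simp [Ok, ly]⟩
  · rcases j with j | j | j
    · simp [Ok, ly] at h
    · simp [Ok, ly] at h
    · obtain ⟨c, hc1, -⟩ := exists_third j j
      exact ⟨Sum.inr (Sum.inr c), by simp, by simpa using hc1, by simp [Ok, ly],
        by simp [Ok, ly]⟩
  · rcases j with j | j | j
    · simp [Ok, ly] at h
    · simp [Ok, ly] at h
    · obtain ⟨c, hc1, hc2⟩ := exists_third i j
      exact ⟨Sum.inr (Sum.inr c), by simpa using hc1.symm, by simpa using hc2,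
        by simp [Ok, ly], by simp [Ok, ly]⟩

/-- the group generated by these transvections -/
def Gr (k : ℕ) : Subgroup (Au k) :=
  Subgroup.closure {g | ∃ (i j : Ix k) (h : i ≠ j), Ok i j ∧ g = tv i j h}

theorem tv_mem {k : ℕ} {i j : Ix k} (h : i ≠ j) (hok : Ok i j) : tv i j h ∈ Gr k :=
  Subgroup.subset_closure ⟨i, j, h, hok, rfl⟩

open scoped commutatorElement in
theorem perfect_Gr (k : ℕ) : commutator (Gr k) = ⊤ := by
  have h1 : Gr k ≤ ⁅Gr k, Gr k⁆ := by
    conv_lhs => unfold Gr
    rw [Subgroup.closure_le]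
    rintro _ ⟨i, j, h, hok, rfl⟩
    obtain ⟨l, h1, h2, hok1, hok2⟩ := ok_third hok
    rw [← tv_comm h1 h2 h]
    exact Subgroup.commutator_mem_commutator (tv_mem h1 hok1) (tv_mem h2 hok2)
  apply Subgroup.map_injective (Gr k).subtype_injective
  rw [Subgroup.map_subtype_commutator, ← MonoidHom.range_eq_map, Subgroup.range_subtype]
  refine le_antisymm ?_ h1
  rw [Subgroup.commutator_le]
  intro a ha b hb
  rw [commutatorElement_def]
  exact (Gr k).mul_mem ((Gr k).mul_mem ((Gr k).mul_mem ha hb) ((Gr k).inv_mem ha))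
    ((Gr k).inv_mem hb)

instance (k : ℕ) : Finite (Au k) :=
  Finite.of_injective (fun e : Au k => (e : Sp k → Sp k)) DFunLike.coe_injective

theorem smul_def {k : ℕ} (s : Gr k) (v : Sp k) : s • v = (s : Au k) v := rfl

theorem span_Gr (k : ℕ) :
    AddSubgroup.closure {w : Sp k | ∃ (s : Gr k) (v : Sp k), w = s • v - v} = ⊤ := by
  have h1 : ∀ (i : Ix k) (a : ZMod 2), Pi.single i a ∈
      AddSubgroup.closure {w : Sp k | ∃ (s : Gr k) (v : Sp k), w = s • v - v} := by
    intro i a
    have h2 : ∃ j : Ix k, i ≠ j ∧ Ok i j := by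
      rcases i with i | i | i
      · obtain ⟨c, hc1, -⟩ := exists_third i i
        exact ⟨Sum.inl c, by simpa using hc1.symm, by simp [Ok, ly]⟩
      · exact ⟨Sum.inr (Sum.inr 0), by simp, by simp [Ok, ly]⟩
      · obtain ⟨c, hc1, -⟩ := exists_third i i
        exact ⟨Sum.inr (Sum.inr c), by simpa using hc1.symm, by simp [Ok, ly]⟩
    obtain ⟨j, hij, hok⟩ := h2
    apply AddSubgroup.subset_closure
    refine ⟨⟨tv i j hij, tv_mem hij hok⟩, Pi.single j a, ?_⟩
    rw [smul_def, tv_apply, add_sub_cancel_left, Pi.single_eq_same]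
  rw [eq_top_iff]
  rintro v -
  rw [← Finset.univ_sum_single v]
  exact AddSubgroup.sum_mem _ fun i _ => h1 i (v i)

theorem fixed_Gr (k : ℕ) (v : Sp k) (h : ∀ s : Gr k, s • v = v) : v = 0 := by
  funext j
  have h2 : ∃ i : Ix k, i ≠ j ∧ Ok i j := by
    rcases j with j | j | j
    · obtain ⟨c, hc1, -⟩ := exists_third j j
      exact ⟨Sum.inl c, by simpa using hc1, by simp [Ok, ly]⟩
    · exact ⟨Sum.inl 0, by simp, by simp [Ok, ly]⟩
    · obtain ⟨c, hc1, -⟩ := exists_third j j
      exact ⟨Sum.inr (Sum.inr c), by simpa using hc1, by simp [Ok, ly]⟩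
  obtain ⟨i, hij, hok⟩ := h2
  have h3 := congrFun (h ⟨tv i j hij, tv_mem hij hok⟩) i
  rw [smul_def, tv_apply, Pi.add_apply, Pi.single_eq_same] at h3
  simpa using h3

/-- the span of the coordinates of the layers below `n` -/
def Lo (k n : ℕ) : AddSubgroup (Sp k) where
  carrier := {v | ∀ i, n ≤ ly i → v i = 0}
  zero_mem' := fun _ _ => rfl
  add_mem' := by
    intro v w hv hw i hi
    rw [Pi.add_apply, hv i hi, hw i hi, add_zero]
  neg_mem' := by
    intro v hv i hi
    rw [Pi.neg_apply, hv i hi, neg_zero]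

theorem moves_Gr {k : ℕ} (g : Au k) (hg : g ∈ Gr k) :
    ∀ v ∈ Lo k 2, g v - v ∈ Lo k 1 ∧ g⁻¹ v - v ∈ Lo k 1 := by
  have hle : Lo k 1 ≤ Lo k 2 := fun v hv i hi => hv i (by omega)
  induction hg using Subgroup.closure_induction with
  | mem g hg =>
    obtain ⟨i, j, h, hok, rfl⟩ := hg
    intro v hv
    have h1 : (Pi.single i (v j) : Sp k) ∈ Lo k 1 := by
      intro x hx
      by_cases hxi : x = i
      · subst hxi
        have h2 : v j = 0 := by
          apply hv
          rcases hok with h | ⟨h, h'⟩ <;> omega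
        rw [h2, Pi.single_zero]; rfl
      · rw [Pi.single_eq_of_ne hxi]
    constructor
    · rw [tv_apply, add_sub_cancel_left]
      exact h1
    · rw [tv_inv_apply, sub_sub_cancel_left]
      exact (Lo k 1).neg_mem h1
  | one =>
    intro v hv
    rw [inv_one, show (1 : Au k) v = v from rfl, sub_self]
    exact ⟨(Lo k 1).zero_mem, (Lo k 1).zero_mem⟩
  | mul g h _ _ hg hh =>
    intro v hv
    constructor
    · have h1 := (hh v hv).1
      have h2 : h v ∈ Lo k 2 := by
        have := (Lo k 2).add_mem (hle h1) hv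
        rwa [sub_add_cancel] at this
      have h3 := (hg _ h2).1
      have h4 := (Lo k 1).add_mem h3 h1
      rwa [sub_add_sub_cancel] at h4
    · have h1 := (hg v hv).2
      have h2 : g⁻¹ v ∈ Lo k 2 := by
        have := (Lo k 2).add_mem (hle h1) hv
        rwa [sub_add_cancel] at this
      have h3 := (hh _ h2).2
      have h4 := (Lo k 1).add_mem h3 h1
      rw [sub_add_sub_cancel] at h4
      rw [mul_inv_rev]
      exact h4
  | inv g _ hg =>
    intro v hv
    rw [inv_inv]
    exact (hg v hv).symm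

theorem fix_Gr {k : ℕ} (s : Gr k) : 2 ^ k ≤ Nat.card {v : Sp k // s • v = v} := by
  -- the map `v ↦ s v - v` from the two lower layers to the lowest one
  let emb : (Fin 3 → ZMod 2) × (Fin k → ZMod 2) →+ Sp k :=
    { toFun := fun p => Sum.elim p.1 (Sum.elim p.2 0)
      map_zero' := by
        funext x; rcases x with x | x | x <;> rfl
      map_add' := by
        intro p q
        funext x; rcases x with x | x | x
        · rfl
        · rfl
        · simp }
  have hemb : ∀ p, emb p ∈ Lo k 2 := by
    intro p i hi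
    rcases i with i | i | i
    · simp [ly] at hi
    · simp [ly] at hi
    · rfl
  let f : (Fin 3 → ZMod 2) × (Fin k → ZMod 2) →+ (Fin 3 → ZMod 2) :=
    { toFun := fun p i => ((s : Au k) (emb p) - emb p) (Sum.inl i)
      map_zero' := by
        funext i
        rw [map_zero, map_zero, sub_zero]; rfl
      map_add' := by
        intro p q
        funext i
        rw [map_add, map_add]
        simp only [Pi.sub_apply, Pi.add_apply]
        ring }
  have hker : ∀ p ∈ f.ker, s • emb p = emb p := by
    intro p hp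
    rw [smul_def]
    have h1 := (moves_Gr _ s.2 _ (hemb p)).1
    rw [← sub_eq_zero]
    funext x
    by_cases hx : 1 ≤ ly x
    · exact h1 x hx
    · rcases x with x | x | x
      · exact congrFun ((AddMonoidHom.mem_ker).1 hp) x
      · simp [ly] at hx
      · simp [ly] at hx
  have hinj : Function.Injective (fun p : f.ker => (⟨emb p.1, hker p.1 p.2⟩ :
      {v : Sp k // s • v = v})) := by
    intro p q h
    have h1 : emb p.1 = emb q.1 := congrArg Subtype.val h
    apply Subtype.ext
    apply Prod.ext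
    · funext i
      exact congrFun h1 (Sum.inl i)
    · funext i
      exact congrFun h1 (Sum.inr (Sum.inl i))
  refine le_trans ?_ (Nat.card_le_card_of_injective _ hinj)
  have h2 : Nat.card ((Fin 3 → ZMod 2) × (Fin k → ZMod 2)) = Nat.card f.range * Nat.card f.ker := by
    rw [AddSubgroup.card_eq_card_quotient_mul_card_addSubgroup f.ker,
      Nat.card_congr (QuotientAddGroup.quotientKerEquivRange f).toEquiv]
  have h3 : Nat.card f.range ≤ 8 := by
    have := Nat.card_le_card_of_injective (f.range.subtype) f.range.subtype_injective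
    have h4 : Nat.card (Fin 3 → ZMod 2) = 8 := by
      rw [Nat.card_eq_fintype_card]; simp
    rw [h4] at this
    exact this
  have h5 : Nat.card ((Fin 3 → ZMod 2) × (Fin k → ZMod 2)) = 8 * 2 ^ k := by
    rw [Nat.card_eq_fintype_card]; simp
  rw [h5] at h2
  have h6 : 8 * 2 ^ k ≤ 8 * Nat.card f.ker := by
    rw [h2]; exact Nat.mul_le_mul_right _ h3
  omega

/-- For every `c` there is a finite perfect group `G` with trivial centre such that every
conjugacy class `x^G` satisfies `|x^G| ^ c < |G|`. In particular, for `c = 2`, there is a finite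
perfect group `G` with trivial centre and `|G| > n(G) ^ 2`, where `n(G)` is the largest size of a
conjugacy class. -/
theorem result : ∀ c : ℕ, ∃ (G : Type) (_ : Group G) (_ : Finite G),
    commutator G = ⊤ ∧ Subgroup.center G = ⊥ ∧
      ∀ x : G, Nat.card {y : G // IsConj x y} ^ c < Nat.card G := by
  intro c
  refine main_of (S := Gr (6 * c)) (V := Sp (6 * c)) c 64 (2 ^ (6 * c)) (by norm_num) ?_ ?_
    fix_Gr (perfect_Gr _) (span_Gr _) ?_ (fixed_Gr _)
  · rw [pow_mul]; norm_num
  · rw [Nat.card_eq_fintype_card]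
    simp [pow_add]
    ring
  · intro s h
    apply Subtype.ext
    apply LinearEquiv.ext
    intro v
    exact h v

end Pool.Agent.Results.MP_606b74_al.NoPowerBound
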